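import Pool.Graph.R_seed8.Y45.MON.Main

/-!
# MP_e0e7d6_al: the logical core once more, with more information

A re-run of the assembly `Pool.Agent.Y665.MON.coreJob` and of the computability job
`Pool.Agent.Y839.MON.comp_laws`: the laws split into a fixed finite list and three laws in two
letters which depend on the input; every recursively enumerable set is coded; the laws hold in all
abelian groups of exponent dividing `p q`.
-/

set_option autoImplicit false

namespace Pool.Agent.H318.SI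

open Pool.Agent.Y45.MON
open Turing Tm Sy
open Pool.Agent.Helper270.WPSource (u sym)

/-- the tape alphabet -/
abbrev GA : Type := TM2to1.Γ' PartrecToTM2.K' (fun _ => PartrecToTM2.Γ')

/-- the group satisfies the law -/
def HL (G : Type) [Group G] (W : List (ℕ × Bool)) : Prop :=
  ∀ f : ℕ → G, FreeGroup.lift f (FreeGroup.mk W) = 1

/-- the value of the word depends on the letters `0, 1` only -/
def Two (W : List (ℕ × Bool)) : Prop :=
  ∀ (G : Type) [Group G] (f g : ℕ → G), f 0 = g 0 → f 1 = g 1 →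
    FreeGroup.lift f (FreeGroup.mk W) = FreeGroup.lift g (FreeGroup.mk W)

section

variable {Γ Λ : Type} [Inhabited Γ] [Inhabited Λ]

theorem ev_tR {G : Type} [Group G] (v : Sy Γ Λ → G → G → G) (f g : ℕ → G) (h0 : f 0 = g 0)
    (h1 : f 1 = g 1) (l : List Γ) : ev v f (tR l) = ev v g (tR (Λ := Λ) l) := by
  induction l with
  | nil => simp only [tR, ev, h0, h1]
  | cons a l ih => simp only [tR, tA0, ev, ih, h0, h1]

theorem ev_tA0 {G : Type} [Group G] (v : Sy Γ Λ → G → G → G) (f g : ℕ → G) (h0 : f 0 = g 0)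
    (h1 : f 1 = g 1) : ev v f tA0 = ev v g tA0 := by
  simp only [tA0, ev, h0, h1]

theorem ev_tB0 {G : Type} [Group G] (v : Sy Γ Λ → G → G → G) (f g : ℕ → G) (h0 : f 0 = g 0)
    (h1 : f 1 = g 1) (l : List Γ) : ev v f (tB0 l) = ev v g (tB0 l) := by
  simp only [tB0, tA0, ev, ev_tR v f g h0 h1, h0, h1]

/-- abelian groups of exponent dividing `N` satisfy all laws -/
theorem ab_laws (M : TM0.Machine Γ Λ) (l : List Γ) (p q N : ℕ) {G : Type} [Group G]
    (v : Sy Γ Λ → G → G → G) (hv : Opv G v) (hc : ∀ a b : G, a * b = b * a)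
    (hN : ∀ g : G, g ^ N = 1) (t : Tm (Sy Γ Λ)) (ht : IsLaw M l p q N t) (f : ℕ → G) :
    ev v f t = 1 := by
  have hal : ∀ a b : G, v al a b = 1 := fun a b => hv.v1 al a b (hc a b) (by simp [IsE])
  have hga : ∀ a b : G, v ga a b = 1 := fun a b => hv.v1 ga a b (hc a b) (by simp [IsE])
  have hep : ∀ a b : G, v ep a b = a := fun a b => hv.vE ep a b (hc a b) (by simp [IsE])
  have heq : ∀ a b : G, v Sy.eq a b = a := fun a b => hv.vE Sy.eq a b (hc a b) (by simp [IsE])
  cases ht with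
  | l0 => simp only [ev, hN]
  | l1 => simp only [ev, hal, one_pow]
  | l2 s a o o2 s1 s2 t1 t2 h => simp only [ev, hep, hal, one_pow]
  | l3p s a o h => simp only [ev, hep, hga, one_pow]
  | l3q s a o h => simp only [ev, heq, hga, one_pow]
  | l4p s a o o2 s1 s2 t1 t2 h => simp only [ev, hep, hga, one_pow]
  | l4q s a o o2 s1 s2 t1 t2 h => simp only [ev, heq, hga, one_pow]
  | l5p => simp only [ev, hep, hga, one_pow]
  | l5q => simp only [ev, heq, hga, one_pow]
  | l6p =>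
    simp only [ev, hep]
    rw [hc (f 0) (f 1), mul_assoc (f 1), mul_inv_cancel, mul_one, mul_inv_cancel, one_pow]
  | l6q =>
    simp only [ev, heq]
    rw [hc (f 0) (f 1), mul_assoc (f 1), mul_inv_cancel, mul_one, mul_inv_cancel, one_pow]

end

/-- the core -/
theorem core : ∃ (p q : ℕ) (L : List (List (ℕ × Bool))) (W1 W2 W3 U : ℕ → List (ℕ × Bool)),
    p.Prime ∧ q.Prime ∧ p ≠ q ∧ Computable W1 ∧ Computable W2 ∧ Computable W3 ∧
    (∀ n, Two (W1 n) ∧ Two (W2 n) ∧ Two (W3 n)) ∧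
    (∀ n (G : Type) [Group G], (∀ g : G, g ^ (p * q) = 1) → (∀ a b : G, a * b = b * a) →
      (∀ W ∈ L, HL G W) ∧ HL G (W1 n) ∧ HL G (W2 n) ∧ HL G (W3 n)) ∧
    (∀ n, (u n).Dom → ∀ (G : Type) [Group G],
      (∀ W ∈ L, HL G W) → HL G (W1 n) → HL G (W2 n) → HL G (W3 n) → ∀ a b : G, a * b = b * a) ∧
    ∀ n, ¬ (u n).Dom → ∀ S : Set ℕ, ∃ (G : Type) (_ : Group G),
      (∀ g : G, g ^ (p * q) = 1) ∧
      (∀ W ∈ L, HL G W) ∧ HL G (W1 n) ∧ HL G (W2 n) ∧ HL G (W3 n) ∧
      (∃ x y : G, Subgroup.closure {x, y} = ⊤ ∧ x * y ≠ y * x) ∧ Infinite G ∧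
      ∀ i : ℕ, HL G (U i) ↔ i ∈ S := by
  classical
  obtain ⟨Λ, i1, i2, M, hM⟩ := Helper270.WPSource.exists_machine
  have fG : Finite GA := Y665.MON.finite_ga
  have fS : Finite (Sy GA Λ) := Y665.MON.finite_sy GA Λ
  obtain ⟨r, ⟨φ⟩⟩ : ∃ r : ℕ, Nonempty (Sy GA Λ ≃ Fin r) := Finite.exists_equiv_fin _
  obtain ⟨w, n0, hw, hn0, hw2⟩ := aMon r (fun j => if IsE (φ.symm j) then 2 else 1) (by
    intro j
    by_cases h : IsE (φ.symm j)
    · right; exact if_pos h
    · left; exact if_neg h)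
  obtain ⟨p, hp1, hp⟩ := Nat.exists_infinite_primes n0
  obtain ⟨q, hq1, hq⟩ := Nat.exists_infinite_primes (p + 1)
  have hpq : p ≠ q := by omega
  have hδ : ∀ j : Sy GA Λ, w.δ (φ j) = if IsE j then 2 else 1 := by
    intro j
    rw [hw]
    simp only [Equiv.symm_apply_apply]
  have hopv : ∀ (G : Type) [Group G],
      Opv G (fun (j : Sy GA Λ) (a b : G) => vv w (φ j) a b) := by
    intro G _
    constructor
    · intro j a b h hj
      rw [Y665.MON.vv_comm w (φ j) a b h, hδ, if_neg hj]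
      group
    · intro j a b h hj
      rw [Y665.MON.vv_comm w (φ j) a b h, hδ, if_pos hj]
      group
  -- the laws
  have hC := Y839.MON.finite_C M p q (p * q)
  set LC : List (List (ℕ × Bool)) := hC.toFinset.toList.map (toL w φ) with hLC
  have hB := Y839.MON.comp_tB0 w φ
  have g1 : Primrec (fun x : List (ℕ × Bool) => pwL (vvL w (φ Sy.al) (toL w φ tA0) x) p) :=
    Y839.MON.pr_pwL.comp (Y839.MON.pr_vvL w (Primrec.const _) (Primrec.const _) Primrec.id)
      (Primrec.const _)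
  have g2 : ∀ (s : Fin r) (k : ℕ), Primrec (fun x : List (ℕ × Bool) =>
      pwL (vvL w s (toL w φ (op Sy.ga (var 0) (var 1))) (vvL w (φ Sy.ga) (toL w φ tA0) x)) k) :=
    fun s k => Y839.MON.pr_pwL.comp (Y839.MON.pr_vvL w (Primrec.const _) (Primrec.const _)
      (Y839.MON.pr_vvL w (Primrec.const _) (Primrec.const _) Primrec.id)) (Primrec.const _)
  let T1 : ℕ → Tm (Sy GA Λ) := fun n => pow (op Sy.al tA0 (tB0 (inp n))) p
  let T2 : ℕ → Tm (Sy GA Λ) := fun n =>
    pow (op Sy.ep (op Sy.ga (var 0) (var 1)) (op Sy.ga tA0 (tB0 (inp n)))) p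
  let T3 : ℕ → Tm (Sy GA Λ) := fun n =>
    pow (op Sy.eq (op Sy.ga (var 0) (var 1)) (op Sy.ga tA0 (tB0 (inp n)))) q
  have hTo : ∀ (t : Tm (Sy GA Λ)) (G : Type) [Group G] (f : ℕ → G),
      FreeGroup.lift f (FreeGroup.mk (toL w φ t)) =
        ev (fun (j : Sy GA Λ) (a b : G) => vv w (φ j) a b) f t :=
    fun t G _ f => Y839.MON.toL_val (Sy GA Λ) r w φ G f t
  have hLCm : ∀ (G : Type) [Group G], (∀ W ∈ LC, HL G W) ↔
      ∀ t, Y839.MON.IsC M p q (p * q) t →
        ∀ f : ℕ → G, ev (fun (j : Sy GA Λ) (a b : G) => vv w (φ j) a b) f t = 1 := by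
    intro G _
    constructor
    · intro h t ht f
      rw [← hTo]
      refine h _ ?_ f
      rw [hLC, List.mem_map]
      exact ⟨t, Finset.mem_toList.2 (hC.mem_toFinset.2 ht), rfl⟩
    · intro h W hW f
      rw [hLC, List.mem_map] at hW
      obtain ⟨t, ht, rfl⟩ := hW
      rw [hTo]
      exact h t (hC.mem_toFinset.1 (Finset.mem_toList.1 ht)) f
  have hG1 : ∀ (t : Tm (Sy GA Λ)) (G : Type) [Group G], HL G (toL w φ t) ↔
      ∀ f : ℕ → G, ev (fun (j : Sy GA Λ) (a b : G) => vv w (φ j) a b) f t = 1 := by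
    intro t G _
    constructor
    · intro h f
      rw [← hTo]
      exact h f
    · intro h f
      rw [hTo]
      exact h f
  have hsat : ∀ (n : ℕ) (G : Type) [Group G],
      ((∀ W ∈ LC, HL G W) ∧ HL G (toL w φ (T1 n)) ∧ HL G (toL w φ (T2 n)) ∧
        HL G (toL w φ (T3 n))) ↔
      ∀ t, IsLaw M (inp n) p q (p * q) t →
        ∀ f : ℕ → G, Tm.ev (fun (j : Sy GA Λ) (a b : G) => vv w (φ j) a b) f t = 1 := by
    intro n G _
    rw [hLCm, hG1, hG1, hG1]
    constructor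
    · rintro ⟨h, h1, h2, h3⟩ t ht f
      rcases (Y839.MON.law_iff M _ p q (p * q) t).1 ht with h4 | rfl | rfl | rfl
      · exact h t h4 f
      · exact h1 f
      · exact h2 f
      · exact h3 f
    · intro h
      exact ⟨fun t ht f => h t ((Y839.MON.law_iff M _ p q (p * q) t).2 (Or.inl ht)) f,
        h _ IsLaw.l1, h _ IsLaw.l5p, h _ IsLaw.l5q⟩
  refine ⟨p, q, LC, fun n => toL w φ (T1 n), fun n => toL w φ (T2 n), fun n => toL w φ (T3 n),
    fun i => toL w φ (tU p i), hp, hq, hpq, ?_, ?_, ?_, ?_, ?_, ?_, ?_⟩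
  · exact g1.to_comp.comp hB
  · exact (g2 _ _).to_comp.comp hB
  · exact (g2 _ _).to_comp.comp hB
  · intro n
    refine ⟨?_, ?_, ?_⟩
    · intro G _ f g h0 h1
      rw [hTo, hTo]
      simp only [T1, ev, ev_tA0 _ f g h0 h1, ev_tB0 _ f g h0 h1]
    · intro G _ f g h0 h1
      rw [hTo, hTo]
      simp only [T2, ev, ev_tA0 _ f g h0 h1, ev_tB0 _ f g h0 h1, h0, h1]
    · intro G _ f g h0 h1
      rw [hTo, hTo]
      simp only [T3, ev, ev_tA0 _ f g h0 h1, ev_tB0 _ f g h0 h1, h0, h1]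
  · intro n G _ hN hc
    exact (hsat n G).2 fun t ht f => ab_laws M (inp n) p q (p * q) _ (hopv G) hc hN t ht f
  · intro n hn G _ h h1 h2 h3
    exact Y769.MON.haltStmt GA Λ M (inp n) p q (p * q) ((Nat.coprime_primes hp hq).2 hpq)
      ((hM n).2 hn) G _ (hopv G) ((hsat n G).1 ⟨h, h1, h2, h3⟩)
  · intro n hn' S
    have hn : ¬ Hlt M (inp n) := fun h => hn' ((hM n).1 h)
    have hN : p * q ≠ 1 := by
      intro h
      exact hp.one_lt.ne' (Nat.eq_one_of_mul_eq_one_right h)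
    have hpr : ∀ s : ℕ, s.Prime → s ∣ p * q → n0 ≤ s := by
      intro s hs hd
      rcases (Nat.Prime.dvd_mul hs).1 hd with h | h
      · rw [(Nat.prime_dvd_prime_iff_eq hs hp).1 h]
        exact hp1
      · rw [(Nat.prime_dvd_prime_iff_eq hs hq).1 h]
        omega
    have heps : ∀ (j : Sy GA Λ) (c c' : Col (Sy GA Λ)),
        eps M (inp n) p q S j c c' ∣ p * q ∧ eps M (inp n) p q S j c c' ≠ 1 := by
      intro j c c'
      rcases Y665.MON.eps_val M (inp n) p q S j c c' with h | h | h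
      · rw [h]
        exact ⟨dvd_mul_right p q, hp.one_lt.ne'⟩
      · rw [h]
        exact ⟨dvd_mul_left q p, hq.one_lt.ne'⟩
      · rw [h]
        exact ⟨dvd_rfl, hN⟩
    obtain ⟨G, iG, col, rk, hP⟩ := hw2 (p * q) hN hpr (Col (Sy GA Λ)) ⟨Col.bas⟩
      (fun j c c' => Col.node (φ.symm j) c c')
      (fun j c c' => eps M (inp n) p q S (φ.symm j) c c') (fun j c c' => heps _ c c')
    have hAM : AM (p * q) G (fun (j : Sy GA Λ) (a b : G) => vv w (φ j) a b)
        (eps M (inp n) p q S) col rk := by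
      refine ⟨hopv G, hP.exp, hP.rkc, fun j a b h => hP.rk1 (φ j) a b h, ?_, ?_, ?_,
        fun j a b h => hP.cmt (φ j) a b h⟩
      · intro j a b h
        have := hP.ord (φ j) a b h
        simpa only [Equiv.symm_apply_apply] using this
      · intro j a b h
        have := hP.clr (φ j) a b h
        simpa only [Equiv.symm_apply_apply] using this
      · intro j j' a b a' b' k h h' h1 h2
        have := hP.cmm (φ j) (φ j') a b a' b' k h h' h1 h2
        exact ⟨φ.injective this.1, this.2⟩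
    obtain ⟨x, y, hxy, hxy2⟩ := hP.gen
    have hall := (hsat n G).2 (Y325.MON.monLaw GA Λ M (inp n) p q S hp hq hpq hn G _ col rk hAM)
    refine ⟨G, iG, hP.exp, hall.1, hall.2.1, hall.2.2.1, hall.2.2.2, ⟨x, y, hxy, hxy2⟩,
      Y325.MON.infS GA Λ (p * q) G _ _ col rk (fun j c c' => (heps j c c').2) hAM ⟨x, y, hxy2⟩, ?_⟩
    intro i
    rw [← Y325.MON.indepS GA Λ M (inp n) p q S hp hq hpq G _ col rk hAM ⟨x, y, hxy2⟩ i]
    exact hG1 _ G

end Pool.Agent.H318.SI
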