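import Mathlib

/-!
# MP_e0e7d6_al: definitions (identities of semigroups)
-/

set_option autoImplicit false

namespace Pool.Agent.H318.SI

/-- the value of the nonempty word `w = w.1 w.2` in a semigroup under the substitution `f` -/
def val {S : Type} [Semigroup S] (f : ℕ → S) (w : ℕ × List ℕ) : S :=
  w.2.foldl (fun s b => s * f b) (f w.1)

/-- the identity `u.1 = u.2` holds in `S` -/
def Holds (S : Type) [Semigroup S] (u : (ℕ × List ℕ) × (ℕ × List ℕ)) : Prop :=
  ∀ f : ℕ → S, val f u.1 = val f u.2

/-- the variety of the identity `u.1 = u.2` contains an infinite finitely generated periodic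
semigroup -/
def HasInf (u : (ℕ × List ℕ) × (ℕ × List ℕ)) : Prop :=
  ∃ (S : Type) (_ : Semigroup S), Holds S u ∧ Infinite S ∧
    (∃ A : Set S, A.Finite ∧ Subsemigroup.closure A = ⊤) ∧
    ∀ s : S, (Subsemigroup.closure {s} : Set S).Finite

/-- all nonempty semigroups which satisfy the identity are groups of exponent dividing `N` -/
def AllGroups (N : ℕ) (u : (ℕ × List ℕ) × (ℕ × List ℕ)) : Prop :=
  ∀ (S : Type) [inst : Semigroup S] [Nonempty S], Holds S u →
    ∃ G : Group S, G.toMonoid.toSemigroup = inst ∧ ∀ g : S, g ^ N = 1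

/-- the nonempty semigroups which satisfy the identity are exactly the abelian groups of exponent
dividing `N` -/
def Tame (N : ℕ) (u : (ℕ × List ℕ) × (ℕ × List ℕ)) : Prop :=
  ∀ (S : Type) [inst : Semigroup S] [Nonempty S], Holds S u ↔
    ∃ G : CommGroup S, G.toMonoid.toSemigroup = inst ∧ ∀ g : S, g ^ N = 1

/-- for every set `A` of numbers the identity holds in an infinite group of exponent dividing `N`
which is generated by two elements as a semigroup and in which, among the identities `U i`, exactly
those with `i ∈ A` hold -/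
def Wild (N : ℕ) (U : ℕ → (ℕ × List ℕ) × (ℕ × List ℕ)) (u : (ℕ × List ℕ) × (ℕ × List ℕ)) : Prop :=
  ∀ A : Set ℕ, ∃ (G : Type) (_ : Group G), Holds G u ∧ (∀ g : G, g ^ N = 1) ∧ Infinite G ∧
    (∃ x y : G, Subsemigroup.closure {x, y} = ⊤) ∧ ∀ i : ℕ, Holds G (U i) ↔ i ∈ A

/-- the identity `c a d b = x` with the word `d` in the letters `0, …, 5` in the middle, where the
right side is the single letter number `6` -/
def idn (c : ℕ) (a b : List ℕ) (d : List (Fin 6)) : (ℕ × List ℕ) × (ℕ × List ℕ) :=
  ((c, a ++ (d.map Fin.val ++ b)), (6, []))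

end Pool.Agent.H318.SI
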