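import Pool.Agent.H318.SI.Sg

/-!
# MP_e0e7d6_al: the theorem on one identity
-/

set_option autoImplicit false

namespace Pool.Agent.H318.SI

open Pool.Agent.Y655.MON (posW prod_posW)
open Pool.Agent.Helper270.WPSource (u)

/-- the first part of the left side -/
def pa (N : ℕ) (V : List ℕ) : List ℕ := List.replicate (N - 1) 7 ++ (6 :: V)

/-- the identity -/
def idv (N : ℕ) (V : List ℕ) (d : List (Fin 6)) : (ℕ × List ℕ) × (ℕ × List ℕ) :=
  idn 7 (pa N V) (List.replicate N 8) d

theorem val_idv {G : Type} [Group G] {N : ℕ} (hN : 1 ≤ N) (V : List ℕ) (d : List (Fin 6))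
    (f : ℕ → G) : val f (idv N V d).1 =
      f 7 ^ N * f 6 * (V.map f).prod * (d.map (fun i => f i.val)).prod * f 8 ^ N := by
  rw [val_eq]
  unfold idv idn pa
  simp only [List.map_append, List.map_replicate, List.prod_append, List.prod_replicate,
    List.map_cons, List.prod_cons, List.map_map]
  rw [show (f ∘ Fin.val : Fin 6 → G) = fun i => f i.val from rfl]
  have h7 : f 7 ^ N = f 7 * f 7 ^ (N - 1) := by
    rw [← pow_succ', Nat.sub_add_cancel hN]
  rw [h7]
  simp only [mul_assoc]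

/-- the identity in groups -/
theorem holds_iff {G : Type} [Group G] {N : ℕ} (hN : 1 ≤ N) {V : List ℕ} (hV : ∀ i ∈ V, 9 ≤ i)
    (d : List (Fin 6)) : Holds G (idv N V d) ↔ (∀ g : G, g ^ N = 1) ∧
      (∀ f : ℕ → G, (V.map f).prod = 1) ∧ ∀ f : ℕ → G, (d.map (fun i => f i.val)).prod = 1 := by
  have hr : ∀ f : ℕ → G, val f (idv N V d).2 = f 6 := fun f => rfl
  have hVone : ∀ f : ℕ → G, (∀ i, 9 ≤ i → f i = 1) → (V.map f).prod = 1 := by
    intro f hf
    refine List.prod_eq_one ?_
    intro x hx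
    obtain ⟨i, hi, rfl⟩ := List.mem_map.1 hx
    exact hf i (hV i hi)
  have hdone : ∀ f : ℕ → G, (∀ i, i < 6 → f i = 1) → (d.map (fun i => f i.val)).prod = 1 := by
    intro f hf
    refine List.prod_eq_one ?_
    intro x hx
    obtain ⟨i, hi, rfl⟩ := List.mem_map.1 hx
    exact hf i.val i.2
  constructor
  · intro h
    have hG : ∀ g : G, g ^ N = 1 := by
      intro g
      obtain ⟨F, hF7, hF⟩ : ∃ F : ℕ → G, F 7 = g ∧ ∀ i, i ≠ 7 → F i = 1 :=
        ⟨fun i => if i = 7 then g else 1, if_pos rfl, fun i hi => if_neg hi⟩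
      have h1 := h F
      rw [val_idv hN, hr, hVone F (fun i hi => hF i (by omega)),
        hdone F (fun i hi => hF i (by omega)), hF7, hF 6 (by omega), hF 8 (by omega)] at h1
      simpa using h1
    have hf : ∀ f : ℕ → G, (V.map f).prod * (d.map (fun i => f i.val)).prod = 1 := by
      intro f
      have h1 := h f
      rw [val_idv hN, hr, hG, hG, one_mul, mul_one, mul_assoc] at h1
      exact mul_eq_left.1 h1
    refine ⟨hG, fun f => ?_, fun f => ?_⟩
    · obtain ⟨F, hF1, hF2⟩ : ∃ F : ℕ → G, (∀ i, i < 9 → F i = 1) ∧ ∀ i, 9 ≤ i → F i = f i :=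
        ⟨fun i => if i < 9 then 1 else f i, fun i hi => if_pos hi, fun i hi => if_neg (by omega)⟩
      have h1 := hf F
      rw [hdone F (fun i hi => hF1 i (by omega)), mul_one] at h1
      rw [← h1]
      congr 1
      refine List.map_congr_left ?_
      intro i hi
      exact (hF2 i (hV i hi)).symm
    · obtain ⟨F, hF1, hF2⟩ : ∃ F : ℕ → G, (∀ i, i < 9 → F i = f i) ∧ ∀ i, 9 ≤ i → F i = 1 :=
        ⟨fun i => if i < 9 then f i else 1, fun i hi => if_pos hi, fun i hi => if_neg (by omega)⟩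
      have h1 := hf F
      rw [hVone F hF2, one_mul] at h1
      rw [← h1]
      congr 1
      refine List.map_congr_left ?_
      intro i hi
      have := i.2
      exact (hF1 i.val (by omega)).symm
  · rintro ⟨hG, h1, h2⟩ f
    rw [val_idv hN, hr, hG, hG, h1, h2]
    simp

/-- nonempty semigroups with the identity are groups -/
theorem group_of_holds {S : Type} [inst : Semigroup S] [Nonempty S] {N : ℕ} (hN : 2 ≤ N)
    (V : List ℕ) (d : List (Fin 6)) (h : Holds S (idv N V d)) :
    ∃ G : Group S, G.toMonoid.toSemigroup = inst := by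
  have hr : ∀ f : ℕ → S, val f (idv N V d).2 = f 6 := fun f => rfl
  refine group_of_simple ?_ ?_
  · intro z y
    have h1 := h (fun i => if i = 7 then z else y)
    rw [hr] at h1
    obtain ⟨k, rfl⟩ : ∃ k, N = k + 2 := ⟨N - 2, by omega⟩
    have h2 : val (fun i => if i = 7 then z else y) (idv (k + 2) V d).1 =
        z * val (fun i => if i = 7 then z else y) (7, List.replicate k 7 ++ (6 :: V) ++
          (d.map Fin.val ++ List.replicate (k + 2) 8)) := by
      unfold val idv idn pa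
      rw [show k + 2 - 1 = k + 1 by omega, List.replicate_succ]
      simp only [List.cons_append, List.foldl_cons, if_true]
      rw [foldl_mul]
    rw [h2] at h1
    exact ⟨_, h1⟩
  · intro z y
    have h1 := h (fun i => if i = 8 then z else y)
    rw [hr] at h1
    obtain ⟨k, rfl⟩ : ∃ k, N = k + 1 := ⟨N - 1, by omega⟩
    have h2 : val (fun i => if i = 8 then z else y) (idv (k + 1) V d).1 =
        val (fun i => if i = 8 then z else y) (7, pa (k + 1) V ++ (d.map Fin.val ++
          List.replicate k 8)) * z := by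
      unfold val idv idn
      rw [List.replicate_succ']
      simp only [← List.append_assoc]
      rw [List.foldl_append]
      simp
    rw [h2] at h1
    exact ⟨_, h1⟩

/-- finiteness of cyclic subsemigroups -/
theorem cyc_finite {G : Type} [Group G] {N : ℕ} (hN : 1 ≤ N) (hG : ∀ g : G, g ^ N = 1) (s : G) :
    (Subsemigroup.closure {s} : Set G).Finite := by
  have h3 : IsOfFinOrder s := isOfFinOrder_iff_pow_eq_one.2 ⟨N, by omega, hG s⟩
  refine (finite_zpowers.2 h3).subset ?_
  have h4 : Subsemigroup.closure ({s} : Set G) ≤ (Subgroup.zpowers s).toSubsemigroup := by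
    rw [Subsemigroup.closure_le]
    rintro z rfl
    exact Subgroup.mem_zpowers z
  exact h4

/-- generation as a semigroup -/
theorem gen_sg {G : Type} [Group G] {N : ℕ} (hN : 2 ≤ N) (hG : ∀ g : G, g ^ N = 1) (x y : G)
    (hxy : Subgroup.closure {x, y} = ⊤) : Subsemigroup.closure ({x, y} : Set G) = ⊤ := by
  have hpow : ∀ z ∈ Subsemigroup.closure ({x, y} : Set G), ∀ k : ℕ,
      z ^ (k + 1) ∈ Subsemigroup.closure ({x, y} : Set G) := by
    intro z hz k
    induction k with
    | zero => rwa [zero_add, pow_one]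
    | succ k ih => rw [pow_succ]; exact mul_mem ih hz
  have hx : x ∈ Subsemigroup.closure ({x, y} : Set G) :=
    Subsemigroup.subset_closure (by simp)
  have h3 : Subgroup.closure ({x, y} : Set G) ≤
      { carrier := (Subsemigroup.closure ({x, y} : Set G) : Set G)
        mul_mem' := fun ha hb => mul_mem ha hb
        one_mem' := by
          have := hpow x hx (N - 1)
          rw [Nat.sub_add_cancel (by omega), hG] at this
          exact this
        inv_mem' := fun {z} hz => by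
          have h4 := hpow z hz (N - 2)
          have h5 : z ^ (N - 2 + 1) = z⁻¹ := by
            rw [eq_inv_iff_mul_eq_one, ← pow_succ, show N - 2 + 1 + 1 = N by omega, hG]
          rw [h5] at h4
          exact h4 } := by
    rw [Subgroup.closure_le]
    exact Subsemigroup.subset_closure
  rw [hxy] at h3
  rw [eq_top_iff]
  intro z _
  exact h3 (Subgroup.mem_top z)

/-- wild identities have infinite finitely generated periodic semigroups -/
theorem hasInf_of_wild {N : ℕ} (hN : 1 ≤ N) {U : ℕ → (ℕ × List ℕ) × (ℕ × List ℕ)}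
    {v : (ℕ × List ℕ) × (ℕ × List ℕ)} (h : Wild N U v) : HasInf v := by
  obtain ⟨G, iG, h1, h2, h3, ⟨x, y, h4⟩, -⟩ := h ∅
  exact ⟨G, inferInstance, h1, h3, ⟨{x, y}, by simp, h4⟩, cyc_finite hN h2⟩

/-- tame identities do not -/
theorem not_hasInf_of_tame {N : ℕ} (hN : 1 ≤ N) {v : (ℕ × List ℕ) × (ℕ × List ℕ)}
    (h : Tame N v) : ¬ HasInf v := by
  rintro ⟨S, inst, hsat, hinf, ⟨A, hA, hcl⟩, -⟩
  have : Nonempty S := hinf.nonempty
  obtain ⟨CG, hGS, hG⟩ := (h S).1 hsat
  subst hGS
  have hfg : Group.FG S := by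
    rw [Group.fg_iff]
    refine ⟨A, ?_, hA⟩
    rw [eq_top_iff]
    have h3 : Subsemigroup.closure A ≤ (Subgroup.closure A).toSubsemigroup := by
      rw [Subsemigroup.closure_le]
      exact Subgroup.subset_closure
    rw [hcl] at h3
    intro z _
    exact h3 (Subsemigroup.mem_top z)
  have htor : IsMulTorsion S := fun g =>
    isOfFinOrder_iff_pow_eq_one.2 ⟨N, by omega, hG g⟩
  have := CommGroup.finite_of_fg_isMulTorsion S htor
  exact not_finite S

/-- the complement of the halting problem is not recursively enumerable -/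
theorem not_re : ¬ REPred (fun n : ℕ => ¬ (u n).Dom) := by
  intro h
  exact Helper270.WPSource.u_not_computable
    (ComputablePred.computable_iff_re_compl_re'.2 ⟨re_u, h⟩)

theorem main : ∃ (p q c : ℕ) (a b : List ℕ) (U : ℕ → (ℕ × List ℕ) × (ℕ × List ℕ)),
    p.Prime ∧ q.Prime ∧ p ≠ q ∧
    (∀ d : List (Fin 6), AllGroups (p * q) (idn c a b d)) ∧
    (∀ P : ℕ → Prop, REPred P → ∃ D : ℕ → List (Fin 6), Computable D ∧
      ∀ n, (P n → Tame (p * q) (idn c a b (D n))) ∧
        (¬ P n → Wild (p * q) U (idn c a b (D n)))) ∧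
    (∀ Q : List (Fin 6) → Prop, (∀ d, Tame (p * q) (idn c a b d) → ¬ Q d) →
      (∀ d, Wild (p * q) U (idn c a b d) → Q d) → ¬ REPred Q) ∧
    ¬ REPred (fun d : List (Fin 6) => HasInf (idn c a b d)) := by
  obtain ⟨p, q, L, W1, W2, W3, U, hp, hq, hpq, hc1, hc2, hc3, htwo, hab, hhalt, hnot⟩ := core
  obtain ⟨N, hN⟩ : ∃ N, N = p * q := ⟨_, rfl⟩
  have hN2 : 2 ≤ N := by
    rw [hN]
    calc 2 ≤ p := hp.two_le
      _ ≤ p * q := Nat.le_mul_of_pos_right p hq.pos
  have hN1 : 1 ≤ N := by omega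
  rw [← hN] at hab hnot
  obtain ⟨V, hV, hV2⟩ := exV N hN1 L 9
  let D0 : ℕ → List (Fin 6) := fun n => dw N (W1 n) (W2 n) (W3 n)
  have hD0 : Computable D0 := comp_dw N hc1 hc2 hc3
  let U' : ℕ → (ℕ × List ℕ) × (ℕ × List ℕ) := fun i => ((0, posW N (U i)), (0, []))
  -- the identity in groups
  have hkey : ∀ (n : ℕ) (G : Type) [Group G], Holds G (idv N V (D0 n)) ↔
      (∀ g : G, g ^ N = 1) ∧ (∀ W ∈ L, HL G W) ∧ HL G (W1 n) ∧ HL G (W2 n) ∧ HL G (W3 n) := by
    intro n G _
    rw [holds_iff hN1 hV]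
    constructor
    · rintro ⟨h1, h2, h3⟩
      exact ⟨h1, (hV2 G h1).1 h2,
        (dw_iff hN1 (htwo n).1 (htwo n).2.1 (htwo n).2.2 h1).1 h3⟩
    · rintro ⟨h1, h2, h3⟩
      exact ⟨h1, (hV2 G h1).2 h2,
        (dw_iff hN1 (htwo n).1 (htwo n).2.1 (htwo n).2.2 h1).2 h3⟩
  have hU : ∀ (i : ℕ) (G : Type) [Group G], (∀ g : G, g ^ N = 1) →
      (Holds G (U' i) ↔ HL G (U i)) := by
    intro i G _ hG
    have h1 : ∀ f : ℕ → G, val f (U' i).1 = f 0 *
        FreeGroup.lift (fun i => f (i + 1)) (FreeGroup.mk (U i)) := by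
      intro f
      rw [val_eq, ← prod_posW hN1 hG]
    have h2 : ∀ f : ℕ → G, val f (U' i).2 = f 0 := fun f => rfl
    constructor
    · intro h f
      have h3 := h (fun i => if i = 0 then 1 else f (i - 1))
      rw [h1, h2] at h3
      have h4 : (fun i : ℕ => if i + 1 = 0 then (1 : G) else f (i + 1 - 1)) = f := by
        funext i
        rw [if_neg (Nat.succ_ne_zero i), Nat.add_sub_cancel]
      rw [h4] at h3
      exact mul_eq_left.1 h3
    · intro h f
      rw [h1, h2, h, mul_one]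
  have hall : ∀ d : List (Fin 6), AllGroups N (idv N V d) := by
    intro d S inst _ h
    obtain ⟨G, hG⟩ := group_of_holds hN2 V d h
    subst hG
    exact ⟨G, rfl, ((holds_iff hN1 hV d).1 h).1⟩
  have htame : ∀ n, (u n).Dom → Tame N (idv N V (D0 n)) := by
    intro n hn S inst _
    constructor
    · intro h
      obtain ⟨G, hG⟩ := group_of_holds hN2 V (D0 n) h
      subst hG
      obtain ⟨h1, h2, h3, h4, h5⟩ := (hkey n S).1 h
      exact ⟨{ G with mul_comm := hhalt n hn S h2 h3 h4 h5 }, rfl, h1⟩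
    · rintro ⟨G, hG, h1⟩
      subst hG
      obtain ⟨h2, h3⟩ := hab n S h1 (fun a b => mul_comm a b)
      exact (hkey n S).2 ⟨h1, h2, h3⟩
  have hwild : ∀ n, ¬ (u n).Dom → Wild N U' (idv N V (D0 n)) := by
    intro n hn A
    obtain ⟨G, iG, hG, h1, h2, h3, h4, ⟨x, y, hxy, -⟩, hinf, hA⟩ := hnot n hn A
    refine ⟨G, iG, (hkey n G).2 ⟨hG, h1, h2, h3, h4⟩, hG, hinf, ⟨x, y, gen_sg hN2 hG x y hxy⟩, ?_⟩
    intro i
    rw [hU i G hG]
    exact hA i
  have hQ : ∀ Q : List (Fin 6) → Prop, (∀ d, Tame N (idv N V d) → ¬ Q d) →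
      (∀ d, Wild N U' (idv N V d) → Q d) → ¬ REPred Q := by
    intro Q h1 h2 h3
    apply not_re
    have h4 : ∀ n, ¬ (u n).Dom ↔ Q (D0 n) := fun n =>
      ⟨fun h => h2 _ (hwild n h), fun h h5 => h1 _ (htame n h5) h⟩
    have h5 : REPred (fun n => Q (D0 n)) := Partrec.comp h3 hD0
    exact h5.of_eq fun n => (h4 n).symm
  refine ⟨p, q, 7, pa N V, List.replicate N 8, U', hp, hq, hpq, ?_⟩
  rw [← hN]
  refine ⟨hall, ?_, hQ, hQ _ (fun d h => not_hasInf_of_tame hN1 h)
    (fun d h => hasInf_of_wild hN1 h)⟩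
  intro P hP
  obtain ⟨e, he, he2⟩ := re_reduce P hP
  exact ⟨fun n => D0 (e n), hD0.comp he, fun n => ⟨fun h => htame _ ((he2 n).1 h),
    fun h => hwild _ (fun h5 => h ((he2 n).2 h5))⟩⟩

end Pool.Agent.H318.SI
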