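import Pool.Agent.H318.SI.Defs
import Pool.Agent.H318.SI.Core

/-!
# MP_e0e7d6_al: one identity
-/

set_option autoImplicit false

namespace Pool.Agent.H318.SI

open Pool.Agent.Y655.MON (posW primrec_posW prod_posW)
open Pool.Agent.Helper270.WPSource (u)

/-! ### groups from right and left simple semigroups -/

theorem group_of_simple {S : Type} [inst : Semigroup S] [Nonempty S]
    (hr : ∀ z y : S, ∃ w, z * w = y) (hl : ∀ z y : S, ∃ w, w * z = y) :
    ∃ G : Group S, G.toMonoid.toSemigroup = inst := by
  obtain ⟨a⟩ := ‹Nonempty S›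
  obtain ⟨e, he⟩ := hl a a
  have h1 : ∀ b : S, e * b = b := by
    intro b
    obtain ⟨w, rfl⟩ := hr a b
    rw [← mul_assoc, he]
  choose iv hiv using fun b : S => hl b e
  have h2 : ∀ b : S, b * e = b := by
    intro b
    have h3 : iv b * (b * e) = e := by rw [← mul_assoc, hiv, h1]
    have h4 : iv (iv b) * (iv b * (b * e)) = b * e := by rw [← mul_assoc, hiv, h1]
    have h5 : iv (iv b) * (iv b * b) = b := by rw [← mul_assoc, hiv, h1]
    rw [h3] at h4
    rw [hiv] at h5
    rw [← h4, h5]
  exact ⟨{ inst with
    one := e
    one_mul := h1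
    mul_one := h2
    inv := iv
    inv_mul_cancel := hiv }, rfl⟩

theorem foldl_mul {S : Type} [Semigroup S] (f : ℕ → S) (l : List ℕ) (x y : S) :
    l.foldl (fun s b => s * f b) (x * y) = x * l.foldl (fun s b => s * f b) y := by
  induction l generalizing y with
  | nil => rfl
  | cons b l ih => rw [List.foldl_cons, List.foldl_cons, mul_assoc, ih]

theorem foldl_eq {M : Type} [Monoid M] (f : ℕ → M) (l : List ℕ) (a : M) :
    l.foldl (fun s b => s * f b) a = a * (l.map f).prod := by
  induction l generalizing a with
  | nil => simp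
  | cons b l ih => rw [List.foldl_cons, ih, List.map_cons, List.prod_cons, mul_assoc]

theorem val_eq {M : Type} [Monoid M] (f : ℕ → M) (w : ℕ × List ℕ) :
    val f w = f w.1 * (w.2.map f).prod := foldl_eq f w.2 (f w.1)

/-! ### the word of a finite list of laws -/

theorem exV (N : ℕ) (hN : 1 ≤ N) (L : List (List (ℕ × Bool))) : ∀ c : ℕ, ∃ V : List ℕ,
    (∀ i ∈ V, c ≤ i) ∧ ∀ (G : Type) [Group G], (∀ g : G, g ^ N = 1) →
      ((∀ f : ℕ → G, (V.map f).prod = 1) ↔ ∀ W ∈ L, HL G W) := by
  induction L with
  | nil =>
    intro c
    exact ⟨[], by simp, fun G _ _ => by simp⟩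
  | cons W L ih =>
    intro c
    obtain ⟨m, hm⟩ : ∃ m : ℕ, ∀ x ∈ posW N W, x < m :=
      ⟨(posW N W).sum + 1, fun x hx => Nat.lt_succ_of_le (List.le_sum_of_mem hx)⟩
    obtain ⟨V, hV, hV2⟩ := ih (c + m)
    refine ⟨(posW N W).map (fun i => i + c) ++ V, ?_, ?_⟩
    · intro i hi
      rcases List.mem_append.1 hi with h | h
      · obtain ⟨j, -, rfl⟩ := List.mem_map.1 h
        omega
      · have := hV i h
        omega
    · intro G _ hG
      have hval : ∀ f : ℕ → G, ((((posW N W).map (fun i => i + c)) ++ V).map f).prod =
          ((posW N W).map (fun i => f (i + c))).prod * (V.map f).prod := by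
        intro f
        rw [List.map_append, List.prod_append, List.map_map]
        rfl
      have hone : ∀ f : ℕ → G, (∀ i, c + m ≤ i → f i = 1) → (V.map f).prod = 1 := by
        intro f hf
        refine List.prod_eq_one ?_
        intro x hx
        obtain ⟨i, hi, rfl⟩ := List.mem_map.1 hx
        exact hf i (hV i hi)
      constructor
      · intro h W' hW'
        rcases List.mem_cons.1 hW' with rfl | hW'
        · intro g
          have h1 := h (fun i => if i < c + m then g (i - c - 1) else 1)
          rw [hval, hone _ (fun i hi => if_neg (by omega)), mul_one] at h1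
          have h2 : (posW N W').map (fun i => (fun i => if i < c + m then g (i - c - 1) else 1) (i + c))
              = (posW N W').map (fun i => g (i - 1)) := by
            refine List.map_congr_left ?_
            intro i hi
            have := hm i hi
            have h3 : i + c < c + m := by omega
            have h4 : i + c - c - 1 = i - 1 := by omega
            simp only [if_pos h3, h4]
          rw [h2, prod_posW hN hG (fun i => g (i - 1))] at h1
          simpa only [Nat.add_sub_cancel] using h1
        · revert hW'
          suffices h5 : ∀ W ∈ L, HL G W from fun hW' => h5 W' hW'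
          rw [← hV2 G hG]
          intro f
          have h1 := h (fun i => if i < c + m then 1 else f i)
          rw [hval] at h1
          have h2 : ((posW N W).map (fun i => (fun i => if i < c + m then 1 else f i) (i + c))).prod
              = 1 := by
            refine List.prod_eq_one ?_
            intro x hx
            obtain ⟨i, hi, rfl⟩ := List.mem_map.1 hx
            have := hm i hi
            exact if_pos (by omega)
          have h3 : V.map (fun i => if i < c + m then 1 else f i) = V.map f := by
            refine List.map_congr_left ?_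
            intro i hi
            have := hV i hi
            exact if_neg (by omega)
          rw [h2, one_mul, h3] at h1
          exact h1
      · intro h f
        rw [hval, prod_posW hN hG (fun i => f (i + c)), h W List.mem_cons_self, one_mul]
        exact (hV2 G hG).2 (fun W' hW' => h W' (List.mem_cons_of_mem _ hW')) f

/-! ### the varying word -/

/-- the letters -/
def cc (k0 k1 : Fin 6) (j : ℕ) : Fin 6 := if j % 2 = 1 then k0 else k1

/-- the word in the letters `0, …, 5` -/
def dw (N : ℕ) (W1 W2 W3 : List (ℕ × Bool)) : List (Fin 6) :=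
  (posW N W1).map (cc 0 1) ++ ((posW N W2).map (cc 2 3) ++ (posW N W3).map (cc 4 5))

theorem primrec_cc (k0 k1 : Fin 6) : Primrec (cc k0 k1) := by
  unfold cc
  refine Primrec.ite ?_ (Primrec.const _) (Primrec.const _)
  exact Primrec.eq.comp (Primrec.nat_mod.comp Primrec.id (Primrec.const 2)) (Primrec.const 1)

theorem comp_dw (N : ℕ) {W1 W2 W3 : ℕ → List (ℕ × Bool)} (h1 : Computable W1)
    (h2 : Computable W2) (h3 : Computable W3) :
    Computable (fun n => dw N (W1 n) (W2 n) (W3 n)) := by
  have key : ∀ k0 k1 : Fin 6, Primrec (fun W : List (ℕ × Bool) => (posW N W).map (cc k0 k1)) := by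
    intro k0 k1
    exact Primrec.list_map (primrec_posW N) ((primrec_cc k0 k1).comp Primrec.snd).to₂
  unfold dw
  exact Computable.list_append.comp ((key _ _).to_comp.comp h1)
    (Computable.list_append.comp ((key _ _).to_comp.comp h2) ((key _ _).to_comp.comp h3))

theorem lift_one {G : Type} [Group G] (W : List (ℕ × Bool)) :
    FreeGroup.lift (fun _ : ℕ => (1 : G)) (FreeGroup.mk W) = 1 := by
  have h : FreeGroup.lift (fun _ : ℕ => (1 : G)) = 1 := by
    ext i
    simp
  rw [h, MonoidHom.one_apply]

theorem dw_iff {N : ℕ} (hN : 1 ≤ N) {W1 W2 W3 : List (ℕ × Bool)} (h1 : Two W1) (h2 : Two W2)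
    (h3 : Two W3) {G : Type} [Group G] (hG : ∀ g : G, g ^ N = 1) :
    (∀ f : ℕ → G, ((dw N W1 W2 W3).map (fun i => f i.val)).prod = 1) ↔
      HL G W1 ∧ HL G W2 ∧ HL G W3 := by
  have key : ∀ (f : ℕ → G) (k0 k1 : Fin 6) (W : List (ℕ × Bool)), Two W →
      ((((posW N W).map (cc k0 k1)).map (fun i : Fin 6 => f i.val)).prod =
        FreeGroup.lift (fun i => if i = 0 then f k0 else f k1) (FreeGroup.mk W)) := by
    intro f k0 k1 W hW
    rw [List.map_map]
    have h4 := prod_posW hN hG ((fun i : Fin 6 => f i.val) ∘ cc k0 k1) W
    rw [h4]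
    refine hW G _ _ ?_ ?_
    · simp [cc]
    · simp [cc]
  have hval : ∀ f : ℕ → G, ((dw N W1 W2 W3).map (fun i => f i.val)).prod =
      FreeGroup.lift (fun i => if i = 0 then f 0 else f 1) (FreeGroup.mk W1) *
      (FreeGroup.lift (fun i => if i = 0 then f 2 else f 3) (FreeGroup.mk W2) *
      FreeGroup.lift (fun i => if i = 0 then f 4 else f 5) (FreeGroup.mk W3)) := by
    intro f
    unfold dw
    rw [List.map_append, List.prod_append, List.map_append, List.prod_append, key f 0 1 W1 h1,
      key f 2 3 W2 h2, key f 4 5 W3 h3]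
    rfl
  have e1 : (fun i : ℕ => if i = 0 then (1 : G) else 1) = fun _ => 1 := by
    funext i
    exact ite_self _
  constructor
  · intro h
    refine ⟨fun g => ?_, fun g => ?_, fun g => ?_⟩
    · obtain ⟨F, hF⟩ : ∃ F : ℕ → G, F = fun i => if i = 0 then g 0 else if i = 1 then g 1 else 1 :=
        ⟨_, rfl⟩
      have h4 := (hval F).symm.trans (h F)
      have e2 : (fun i : ℕ => if i = 0 then F 2 else F 3) = fun _ => 1 := by
        funext i
        subst hF
        split_ifs <;> rfl
      have e3 : (fun i : ℕ => if i = 0 then F 4 else F 5) = fun _ => 1 := by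
        funext i
        subst hF
        split_ifs <;> rfl
      rw [e2, e3, lift_one, lift_one, mul_one, mul_one] at h4
      rw [← h4]
      subst hF
      exact h1 G _ _ rfl rfl
    · obtain ⟨F, hF⟩ : ∃ F : ℕ → G, F = fun i => if i = 2 then g 0 else if i = 3 then g 1 else 1 :=
        ⟨_, rfl⟩
      have h4 := (hval F).symm.trans (h F)
      have e2 : (fun i : ℕ => if i = 0 then F 0 else F 1) = fun _ => 1 := by
        funext i
        subst hF
        split_ifs <;> rfl
      have e3 : (fun i : ℕ => if i = 0 then F 4 else F 5) = fun _ => 1 := by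
        funext i
        subst hF
        split_ifs <;> rfl
      rw [e2, e3, lift_one, lift_one, one_mul, mul_one] at h4
      rw [← h4]
      subst hF
      exact h2 G _ _ rfl rfl
    · obtain ⟨F, hF⟩ : ∃ F : ℕ → G, F = fun i => if i = 4 then g 0 else if i = 5 then g 1 else 1 :=
        ⟨_, rfl⟩
      have h4 := (hval F).symm.trans (h F)
      have e2 : (fun i : ℕ => if i = 0 then F 0 else F 1) = fun _ => 1 := by
        funext i
        subst hF
        split_ifs <;> rfl
      have e3 : (fun i : ℕ => if i = 0 then F 2 else F 3) = fun _ => 1 := by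
        funext i
        subst hF
        split_ifs <;> rfl
      rw [e2, e3, lift_one, lift_one, one_mul, one_mul] at h4
      rw [← h4]
      subst hF
      exact h3 G _ _ rfl rfl
  · rintro ⟨k1, k2, k3⟩ f
    rw [hval, k1, k2, k3, one_mul, one_mul]

/-! ### recursively enumerable sets -/

theorem re_reduce (P : ℕ → Prop) (hP : REPred P) :
    ∃ e : ℕ → ℕ, Computable e ∧ ∀ n, P n ↔ (u (e n)).Dom := by
  have h1 : Partrec (fun n : ℕ => (Part.assert (P n) fun _ => Part.some ()).map (fun _ => (0 : ℕ))) :=
    hP.map (Computable.const 0).to₂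
  have h2 : Partrec (fun m : ℕ =>
      (Part.assert (P m.unpair.1) fun _ => Part.some ()).map (fun _ => (0 : ℕ))) :=
    h1.comp (Computable.fst.comp Computable.unpair)
  obtain ⟨c, hc⟩ := Nat.Partrec.Code.exists_code.1 (Partrec.nat_iff.1 h2)
  refine ⟨fun n => Encodable.encode (Nat.Partrec.Code.curry c n), ?_, ?_⟩
  · exact Computable.encode.comp
      ((Nat.Partrec.Code.primrec₂_curry.comp (Primrec.const c) Primrec.id).to_comp)
  · intro n
    unfold u
    rw [Denumerable.ofNat_encode, Nat.Partrec.Code.eval_curry, hc]
    simp [Part.assert]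

theorem re_u : REPred (fun n : ℕ => (u n).Dom) := by
  have h := Helper270.WPSource.u_partrec
  exact h.dom_re

end Pool.Agent.H318.SI
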